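import Pool.Agent.IPD.FIN

set_option autoImplicit false

/-!
Isolated primes in the classes of every modulus, density form: uniformity in the interval.
-/

namespace IPD

open Finset

noncomputable section

open Classical in
/-- The classes which contain exactly one prime up to `t φ(m) log m`, and this prime is in
`(a φ(m) log m, b φ(m) log m]`. -/
def iso (m : ℕ) (t a b : ℝ) : Finset ℕ :=
  (range m).filter (fun c => c.Coprime m ∧
    ∃ q : ℕ, q.Prime ∧ q ≡ c [MOD m] ∧ a * (m.totient * Real.log m) < q ∧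
      (q : ℝ) ≤ b * (m.totient * Real.log m) ∧
      ∀ q' : ℕ, q'.Prime → q' ≡ c [MOD m] → (q' : ℝ) ≤ t * (m.totient * Real.log m) →
        q' = q)

theorem iso_mono {m : ℕ} {t a b a' b' : ℝ} (hm : 1 ≤ m) (ha : a ≤ a') (hb : b' ≤ b) :
    iso m t a' b' ⊆ iso m t a b := by
  classical
  have h0 : 0 ≤ (m.totient : ℝ) * Real.log m :=
    mul_nonneg (Nat.cast_nonneg _) (Real.log_nonneg (by exact_mod_cast hm))
  intro c hc
  unfold iso at hc ⊢
  rw [mem_filter] at hc ⊢
  obtain ⟨h1, h2, q, h3, h4, h5, h6, h7⟩ := hc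
  exact ⟨h1, h2, q, h3, h4, (mul_le_mul_of_nonneg_right ha h0).trans_lt h5,
    h6.trans (mul_le_mul_of_nonneg_right hb h0), h7⟩

/-- The density form, uniform in all intervals of length at least `ε`. -/
def S_UNI : Prop := ∀ t : ℝ, 0 < t → ∃ δ : ℝ, 0 < δ ∧ ∀ ε : ℝ, 0 < ε → ∃ m₀ : ℕ, ∀ m : ℕ,
  m₀ ≤ m → ∀ a b : ℝ, 0 ≤ a → a + ε ≤ b → b ≤ t →
    δ * (b - a) * (m.totient : ℝ) ≤ ((iso m t a b).card : ℝ)

theorem uni (h : S_FIN) : S_UNI := by
  intro t ht
  obtain ⟨δ, hδ, h⟩ := h t ht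
  refine ⟨δ / 2, by positivity, fun ε hε => ?_⟩
  -- the grid
  obtain ⟨N, hN⟩ := exists_nat_gt (4 * t / ε)
  have hN0 : (0 : ℝ) < N := lt_of_le_of_lt (by positivity) hN
  set s : ℝ := t / N with hs
  have hs0 : 0 < s := by positivity
  have hsN : s * N = t := by rw [hs]; field_simp
  have hsε : 4 * s < ε := by
    rw [div_lt_iff₀ hε] at hN
    rw [hs, ← mul_div_assoc, div_lt_iff₀ hN0]
    linarith
  have hgrid : ∀ j k : ℕ, ∃ m₀ : ℕ, j < k → k ≤ N → ∀ m : ℕ, m₀ ≤ m →
      δ * (s * k - s * j) * (m.totient : ℝ) ≤ ((iso m t (s * j) (s * k)).card : ℝ) := by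
    intro j k
    by_cases hjk : j < k ∧ k ≤ N
    · have h1 : s * j < s * k := mul_lt_mul_of_pos_left (by exact_mod_cast hjk.1) hs0
      have h2 : s * k ≤ t := by
        rw [← hsN]
        exact mul_le_mul_of_nonneg_left (by exact_mod_cast hjk.2) hs0.le
      obtain ⟨m₀, h3⟩ := h (s * j) (s * k) (by positivity) h1 h2
      exact ⟨m₀, fun _ _ m hm => h3 m hm⟩
    · exact ⟨0, fun h1 h2 => absurd ⟨h1, h2⟩ hjk⟩
  choose M hM using hgrid
  refine ⟨1 + ∑ j ∈ range (N + 1), ∑ k ∈ range (N + 1), M j k, fun m hm a b ha hab hbt => ?_⟩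
  have hm1 : 1 ≤ m := by omega
  -- grid points
  set j : ℕ := ⌈a / s⌉₊ with hj
  set k : ℕ := ⌊b / s⌋₊ with hk
  have hb0 : 0 < b := by linarith
  have hj1 : a ≤ s * j := by
    have := Nat.le_ceil (a / s)
    rw [div_le_iff₀ hs0] at this
    rw [hj]
    linarith
  have hj2 : s * j < a + s := by
    have h1 := Nat.ceil_lt_add_one (show 0 ≤ a / s by positivity)
    have h2 : s * (⌈a / s⌉₊ : ℝ) < s * (a / s + 1) := mul_lt_mul_of_pos_left h1 hs0
    have h3 : s * (a / s + 1) = a + s := by field_simp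
    rw [hj]
    linarith
  have hk1 : s * k ≤ b := by
    have h1 := Nat.floor_le (show 0 ≤ b / s by positivity)
    rw [le_div_iff₀ hs0] at h1
    rw [hk]
    linarith
  have hk2 : b - s < s * k := by
    have h1 := Nat.lt_floor_add_one (b / s)
    rw [div_lt_iff₀ hs0] at h1
    rw [hk]
    linarith
  have hjk : j < k := by
    have h1 : s * (j : ℝ) < s * k := by linarith
    have h2 : (j : ℝ) < k := lt_of_mul_lt_mul_left h1 hs0.le
    exact_mod_cast h2
  have hkN : k ≤ N := by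
    have h1 : s * (k : ℝ) ≤ s * N := by linarith
    have h2 : (k : ℝ) ≤ N := le_of_mul_le_mul_left h1 hs0
    exact_mod_cast h2
  have hmM : M j k ≤ m := by
    have h1 : M j k ≤ ∑ k ∈ range (N + 1), M j k :=
      single_le_sum (f := fun k => M j k) (fun _ _ => Nat.zero_le _) (mem_range.2 (by omega))
    have h2 : ∑ k ∈ range (N + 1), M j k ≤ ∑ j ∈ range (N + 1), ∑ k ∈ range (N + 1), M j k :=
      single_le_sum (f := fun j => ∑ k ∈ range (N + 1), M j k) (fun _ _ => Nat.zero_le _)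
        (mem_range.2 (by omega))
    omega
  have h1 := hM j k hjk hkN m hmM
  have h2 : ((iso m t (s * j) (s * k)).card : ℝ) ≤ ((iso m t a b).card : ℝ) := by
    exact_mod_cast card_le_card (iso_mono hm1 hj1 hk1)
  refine le_trans ?_ (h1.trans h2)
  refine mul_le_mul_of_nonneg_right ?_ (Nat.cast_nonneg _)
  have h3 : (b - a) / 2 ≤ s * k - s * j := by linarith
  calc δ / 2 * (b - a) = δ * ((b - a) / 2) := by ring
    _ ≤ δ * (s * k - s * j) := mul_le_mul_of_nonneg_left h3 hδ.le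

end

end IPD
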