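import Pool.Agent.IP.Asm
import Pool.Agent.IPD.Uni

set_option autoImplicit false

/-!
Isolated primes in the classes of every modulus, density form: assembly.
-/

namespace IPD

open IP

theorem final : S_UNI :=
  uni (t_FIN (t_EDQ lpg (t_EDP t_CRL t_CRU t_MOF) t_BLH t_VSH t_KVH t_PAR)
    (t_SEL t_BT t_KAV t_TOT (t_PSM t_TOT)) t_KVH t_TOT)

end IPD
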